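import Pool.Agent.Helper4.FLG.CPB

/-!
# Project FLG, packet CPA : quantitative version of the first strictness statement
-/

namespace Pool.Agent.Helper12.FLG.CPA

open Finset Pool.Agent.Helper47.RFn Pool.Agent.Helper47.FLG Pool.Agent.Helper4.FLG

variable {n k : ℕ}

abbrev Sp (n k : ℕ) := T4 n × (Fin n → ℝ) × (Fin k → Fin n → ℝ)

/-- the compact set -/
def K0 (n k : ℕ) (ε : ℝ) : Set (Sp n k) :=
  {p | FG p.1} ∩ ({p | lam p.1 = 1} ∩ ({p | ε ^ 2 ≤ hh p.1} ∩ ({p | nrm p.2.1 = 1} ∩ {p | Con p.2.2})))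

theorem cont_f : Continuous (fun p : Sp n k => elk k p.1 p.2.1 p.2.2) := by
  unfold elk rq Ric K2
  fun_prop

theorem cont_g : Continuous (fun p : Sp n k => elk k (Q p.1) p.2.1 p.2.2) := by
  unfold elk rq Ric K2 Q BB
  fun_prop

theorem cont_hh : Continuous (fun R : T4 n => hh R) := by
  unfold hh
  refine continuous_finsetSum _ fun a _ => continuous_finsetSum _ fun b _ => ?_
  have : (fun R : T4 n => Ric0 R a b ^ 2) = fun R : T4 n => ((∑ c, R a c b c) - lam R * (1 : M2 n) a b) ^ 2 := by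
    funext R
    rfl
  rw [this]
  have h := cont_lam (n := n)
  fun_prop

theorem closed_K0 (ε : ℝ) : IsClosed (K0 n k ε) := by
  refine IsClosed.inter (closed_FG.preimage continuous_fst) (IsClosed.inter ?_ (IsClosed.inter ?_ (IsClosed.inter ?_ ?_)))
  · exact isClosed_eq (cont_lam.comp continuous_fst) continuous_const
  · exact isClosed_le continuous_const (cont_hh.comp continuous_fst)
  · refine isClosed_eq ?_ continuous_const
    unfold nrm
    fun_prop
  · have e : {p : Sp n k | Con p.2.2} = ⋂ c : Fin k → ℝ, {p : Sp n k | nrm (fun j => ∑ i, c i * p.2.2 i j) ≤ nrm c} := by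
      ext p
      simp only [Set.mem_iInter]
      rfl
    rw [e]
    refine isClosed_iInter fun c => isClosed_le ?_ continuous_const
    unfold nrm
    fun_prop

theorem con_le {X : Fin k → Fin n → ℝ} (hX : Con X) (i : Fin k) : nrm (X i) ≤ 1 := by
  have h := hX (sb i)
  have h1 : (fun j => ∑ l, sb i l * X l j) = X i := by
    funext j
    unfold sb
    simp
  have h2 : nrm (sb i) = 1 := by
    unfold nrm sb
    simp
  rw [h1, h2] at h
  exact h

theorem coord_le {v : Fin n → ℝ} (hv : nrm v ≤ 1) (i : Fin n) : |v i| ≤ 1 := by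
  have h : v i ^ 2 ≤ nrm v := by
    unfold nrm
    exact single_le_sum (f := fun i => v i ^ 2) (fun j _ => sq_nonneg _) (mem_univ i)
  rw [← sq_abs] at h
  nlinarith [abs_nonneg (v i)]

theorem compact_K0 (hn : 4 ≤ n) (hFG2 : G_FG2) (ε : ℝ) : IsCompact (K0 n k ε) := by
  refine Metric.isCompact_of_isClosed_isBounded (closed_K0 ε) ?_
  refine (Metric.isBounded_closedBall (x := (0 : Sp n k)) (r := max (n : ℝ) 1)).subset ?_
  rintro ⟨R, z, X⟩ ⟨h1, h2, -, h4, h5⟩
  have h1' : FG R := h1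
  have h2' : lam R = 1 := h2
  have h4' : nrm z = 1 := h4
  have h5' : Con X := h5
  have hr0 : (0 : ℝ) ≤ max (n : ℝ) 1 := le_max_of_le_right zero_le_one
  have hb := (hFG2 n hn R h1').2.1
  rw [Metric.mem_closedBall, dist_zero_right, Prod.norm_def, Prod.norm_def]
  refine max_le ?_ (max_le ?_ ?_)
  · refine (pi_norm_le_iff_of_nonneg hr0).2 fun a => (pi_norm_le_iff_of_nonneg hr0).2 fun b =>
      (pi_norm_le_iff_of_nonneg hr0).2 fun c => (pi_norm_le_iff_of_nonneg hr0).2 fun d => ?_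
    rw [Real.norm_eq_abs]
    refine (hb a b c d).trans ?_
    rw [h2', mul_one]
    exact le_max_left _ _
  · refine (pi_norm_le_iff_of_nonneg hr0).2 fun a => ?_
    rw [Real.norm_eq_abs]
    exact (coord_le h4'.le a).trans (le_max_right _ _)
  · refine (pi_norm_le_iff_of_nonneg hr0).2 fun i => (pi_norm_le_iff_of_nonneg hr0).2 fun a => ?_
    rw [Real.norm_eq_abs]
    exact (coord_le (con_le h5' i) a).trans (le_max_right _ _)

theorem hh_smul (t : ℝ) (R : T4 n) : hh (t • R) = t ^ 2 * hh R := by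
  have h : ∀ a b, Ric0 (t • R) a b = t * Ric0 R a b := by
    intro a b
    obtain ⟨-, -, -, h4, -, h6, -⟩ := Pool.Agent.Helper90.RFn.goal_LN n
    show Ric (t • R) a b - lam (t • R) * (1 : M2 n) a b = t * (Ric R a b - lam R * (1 : M2 n) a b)
    rw [h4, h6]
    show t * Ric R a b - _ = _
    ring
  unfold hh
  simp only [h]
  rw [mul_sum]
  refine sum_congr rfl fun a _ => ?_
  rw [mul_sum]
  exact sum_congr rfl fun b _ => by ring

end Pool.Agent.Helper12.FLG.CPA

namespace Pool.Agent.Helper12.FLG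

open Finset Pool.Agent.Helper47.RFn Pool.Agent.Helper47.FLG Pool.Agent.Helper4.FLG

/-- packet CPA -/
theorem g_CPA (hSA : G_SA) (hFG2 : G_FG2) : G_CPA := by
  intro n hn k hk hkn ε hε
  obtain ⟨m, hm0, hm⟩ : ∃ m : ℝ, 0 < m ∧ ∀ p ∈ CPA.K0 n k ε, m ≤ max (elk k p.1 p.2.1 p.2.2) (elk k (Q p.1) p.2.1 p.2.2) := by
    rcases (CPA.K0 n k ε).eq_empty_or_nonempty with he | hne
    · exact ⟨1, one_pos, fun p hp => by rw [he] at hp; exact absurd hp (Set.notMem_empty p)⟩
    · obtain ⟨p, hp, hmin⟩ := (CPA.compact_K0 hn hFG2 ε).exists_isMinOn hne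
        ((CPA.cont_f (n := n) (k := k)).max CPA.cont_g).continuousOn
      refine ⟨_, ?_, fun q hq => hmin hq⟩
      obtain ⟨h1, h2, h3, h4, h5⟩ := hp
      have h1' : FG p.1 := h1
      have h2' : lam p.1 = 1 := h2
      have h3' : ε ^ 2 ≤ hh p.1 := h3
      have h4' : nrm p.2.1 = 1 := h4
      have h5' : Con p.2.2 := h5
      have h0 := (hFG2 n hn p.1 h1').2.2.2.2.2.2.2.2.2.2.2 k p.2.1 p.2.2 hkn h5'
      rcases h0.eq_or_lt with h | h
      · refine lt_max_of_lt_right ?_
        refine hSA n hn p.1 k p.2.1 p.2.2 h1' (by rw [h2']; exact one_pos) h4' hk hkn h5' h.symm ?_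
        have : 0 < ε ^ 2 := by positivity
        linarith
      · exact lt_max_of_lt_left h
  refine ⟨m / 2, by positivity, fun R z X hR hl hhR hz hX hE => ?_⟩
  have hl1 : 0 < (lam R)⁻¹ := inv_pos.2 hl
  have hlam : lam ((lam R)⁻¹ • R) = 1 := by
    rw [(Pool.Agent.Helper90.RFn.goal_LN n).2.2.2.2.2.1, inv_mul_cancel₀ hl.ne']
  have hmem : ((lam R)⁻¹ • R, z, X) ∈ CPA.K0 n k ε := by
    refine ⟨FG_smul hl1.le hR, hlam, ?_, hz, hX⟩
    show ε ^ 2 ≤ hh ((lam R)⁻¹ • R)
    rw [CPA.hh_smul, inv_pow, ← div_eq_inv_mul, le_div_iff₀ (by positivity)]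
    exact hhR
  have h := hm _ hmem
  simp only at h
  rw [Q_smul, elk_smul, elk_smul] at h
  have h1 : (lam R)⁻¹ * elk k R z X ≤ m / 2 := by
    rw [inv_mul_le_iff₀ hl]
    linarith
  have h2 : m ≤ (lam R)⁻¹ ^ 2 * elk k (Q R) z X := by
    rcases le_max_iff.1 h with h | h
    · linarith
    · exact h
  rw [inv_pow, ← div_eq_inv_mul, le_div_iff₀ (by positivity)] at h2
  have : 0 < m * lam R ^ 2 := by positivity
  linarith

end Pool.Agent.Helper12.FLG
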