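import Pool.Agent.Helper47.FLG.Alg

/-!
# Project FLG, packet FG2 : bounds for tensors with quarter pinched flag curvature
-/

namespace Pool.Agent.Helper12.FLG

open Finset Pool.Agent.Helper47.RFn Pool.Agent.Helper47.FLG

/-! ## Scalar products -/

theorem nrm_dot {n : ℕ} (u : Fin n → ℝ) : nrm u = dot u u := by
  unfold nrm dot
  exact Finset.sum_congr rfl fun i _ => by ring

theorem nrm_nonneg {n : ℕ} (u : Fin n → ℝ) : 0 ≤ nrm u :=
  Finset.sum_nonneg fun _ _ => sq_nonneg _

theorem dot_comm {n : ℕ} (u v : Fin n → ℝ) : dot u v = dot v u := by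
  unfold dot
  exact Finset.sum_congr rfl fun i _ => by ring

theorem dot_cs {n : ℕ} (u v : Fin n → ℝ) : dot u v ^ 2 ≤ nrm u * nrm v := by
  unfold dot nrm
  exact Finset.sum_mul_sq_le_sq_mul_sq _ _ _

theorem wd_nonneg {n : ℕ} (u v : Fin n → ℝ) : 0 ≤ wd u v := by
  unfold wd
  have := dot_cs u v
  linarith

theorem wd_comm {n : ℕ} (u v : Fin n → ℝ) : wd u v = wd v u := by
  unfold wd
  rw [dot_comm u v]
  ring

theorem wd_le {n : ℕ} (u v : Fin n → ℝ) : wd u v ≤ nrm u * nrm v := by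
  unfold wd
  have := sq_nonneg (dot u v)
  linarith

theorem nrm_eq_zero {n : ℕ} {u : Fin n → ℝ} (h : nrm u = 0) : u = 0 := by
  unfold nrm at h
  funext i
  have := (Finset.sum_eq_zero_iff_of_nonneg (fun i _ => sq_nonneg (u i))).1 h i (Finset.mem_univ i)
  simpa using this

theorem dot_comb {n : ℕ} (s t : ℝ) (u u' v : Fin n → ℝ) :
    dot (fun i => s * u i + t * u' i) v = s * dot u v + t * dot u' v := by
  unfold dot
  rw [Finset.mul_sum, Finset.mul_sum, ← Finset.sum_add_distrib]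
  exact Finset.sum_congr rfl fun i _ => by ring

theorem dot_comb' {n : ℕ} (s t : ℝ) (u u' v : Fin n → ℝ) :
    dot v (fun i => s * u i + t * u' i) = s * dot v u + t * dot v u' := by
  rw [dot_comm, dot_comb, dot_comm u, dot_comm u']

theorem dot_sb {n : ℕ} (j : Fin n) (v : Fin n → ℝ) : dot v (sb j) = v j := by
  unfold dot sb
  simp

theorem nrm_sb {n : ℕ} (j : Fin n) : nrm (sb j) = 1 := by
  unfold nrm sb
  simp

/-- the component of `v` orthogonal to `u` -/
noncomputable def prj {n : ℕ} (u v : Fin n → ℝ) : Fin n → ℝ := fun i => 1 * v i + (-(dot u v / nrm u)) * u i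

theorem prj_dot {n : ℕ} {u : Fin n → ℝ} (v : Fin n → ℝ) (hu : nrm u ≠ 0) : dot u (prj u v) = 0 := by
  unfold prj
  rw [dot_comb', ← nrm_dot]
  field_simp
  ring

theorem prj_nrm {n : ℕ} {u : Fin n → ℝ} (v : Fin n → ℝ) (hu : nrm u ≠ 0) :
    nrm u * nrm (prj u v) = wd u v := by
  have h1 : dot (prj u v) (prj u v) = 1 * dot v (prj u v) + (-(dot u v / nrm u)) * dot u (prj u v) :=
    dot_comb _ _ _ _ _
  have h2 : dot v (prj u v) = 1 * dot v v + (-(dot u v / nrm u)) * dot v u := dot_comb' _ _ _ _ _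
  rw [nrm_dot (prj u v), h1, prj_dot v hu, h2, ← nrm_dot, dot_comm v u]
  unfold wd
  field_simp
  ring

/-! ## Contractions and positive semidefinite forms -/

theorem con_sq {n k : ℕ} {X : Fin k → Fin n → ℝ} (hX : Con X) (a : Fin n → ℝ) :
    ∑ i, dot a (X i) ^ 2 ≤ nrm a := by
  set c : Fin k → ℝ := fun i => dot a (X i) with hc
  set v : Fin n → ℝ := fun j => ∑ i, c i * X i j with hv
  have h1 : dot a v = nrm c := by
    unfold dot nrm
    rw [hv]
    simp only [Finset.mul_sum]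
    rw [Finset.sum_comm]
    refine Finset.sum_congr rfl fun i _ => ?_
    have : c i ^ 2 = c i * dot a (X i) := by rw [hc]; ring
    rw [this]
    unfold dot
    rw [Finset.mul_sum]
    exact Finset.sum_congr rfl fun j _ => by ring
  have h2 : nrm v ≤ nrm c := hX c
  have h3 := dot_cs a v
  rw [h1] at h3
  have h4 : nrm a * nrm v ≤ nrm a * nrm c := mul_le_mul_of_nonneg_left h2 (nrm_nonneg a)
  have h5 : nrm c * nrm c ≤ nrm a * nrm c := by nlinarith
  show nrm c ≤ nrm a
  rcases (nrm_nonneg c).eq_or_lt with h0 | h0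
  · rw [← h0]; exact nrm_nonneg a
  · exact le_of_mul_le_mul_right h5 h0

theorem con_one {n : ℕ} {v : Fin n → ℝ} (hv : nrm v ≤ 1) : Con (fun _ : Fin 1 => v) := by
  intro c
  simp only [Finset.univ_unique, Fin.default_eq_zero, Fin.isValue, Finset.sum_singleton]
  have h : nrm (fun j => c 0 * v j) = c 0 ^ 2 * nrm v := by
    unfold nrm
    rw [Finset.mul_sum]
    exact Finset.sum_congr rfl fun i _ => by ring
  have h' : nrm c = c 0 ^ 2 := by
    unfold nrm
    simp
  rw [h, h']
  nlinarith [sq_nonneg (c 0)]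

theorem con_nrm {n k : ℕ} {X : Fin k → Fin n → ℝ} (hX : Con X) (i : Fin k) : nrm (X i) ≤ 1 := by
  have h := hX (sb i)
  have h1 : (fun j => ∑ l, sb i l * X l j) = X i := by
    funext j
    unfold sb
    simp
  rw [h1, nrm_sb] at h
  exact h

open scoped MatrixOrder in
/-- a positive semidefinite form is a sum of squares -/
theorem psd_sq {n : ℕ} {A : M2 n} (hs : A.IsSymm) (hA : ∀ v, 0 ≤ rq A v) :
    ∃ B : M2 n, (∀ v, rq A v = ∑ l, dot (B l) v ^ 2) ∧ ∑ j, A j j = ∑ l, nrm (B l) := by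
  have hP : A.PosSemidef := by
    refine Matrix.PosSemidef.of_dotProduct_mulVec_nonneg ?_ ?_
    · rw [Matrix.IsHermitian, Matrix.conjTranspose_eq_transpose_of_trivial]
      exact hs
    · intro x
      have := hA x
      unfold rq at this
      have e : star x ⬝ᵥ A.mulVec x = ∑ i, ∑ j, A i j * x i * x j := by
        simp only [dotProduct, Matrix.mulVec, star_trivial]
        refine Finset.sum_congr rfl fun i _ => ?_
        rw [Finset.mul_sum]
        exact Finset.sum_congr rfl fun j _ => by ring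
      rw [e]
      exact this
  obtain ⟨B, hB⟩ := CStarAlgebra.nonneg_iff_eq_star_mul_self.mp hP.nonneg
  have hBij : ∀ i j, A i j = ∑ l, B l i * B l j := by
    intro i j
    rw [hB]
    simp [Matrix.mul_apply, Matrix.star_apply]
  refine ⟨B, fun v => ?_, ?_⟩
  · unfold rq
    have e : ∀ l, dot (B l) v ^ 2 = ∑ i, ∑ j, B l i * B l j * v i * v j := by
      intro l
      unfold dot
      rw [sq, Finset.sum_mul_sum]
      exact Finset.sum_congr rfl fun i _ => Finset.sum_congr rfl fun j _ => by ring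
    simp only [e, hBij, Finset.sum_mul]
    rw [Finset.sum_comm]
    rw [Finset.sum_comm]
    calc (∑ i, ∑ j, ∑ l, B l i * B l j * v i * v j)
        = ∑ i, ∑ l, ∑ j, B l i * B l j * v i * v j := by
          exact Finset.sum_congr rfl fun i _ => Finset.sum_comm
      _ = ∑ l, ∑ i, ∑ j, B l i * B l j * v i * v j := Finset.sum_comm
  · unfold nrm
    rw [Finset.sum_comm]
    refine Finset.sum_congr rfl fun j _ => ?_
    rw [hBij]
    exact Finset.sum_congr rfl fun l _ => by ring

/-- trace inequality for positive semidefinite matrices -/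
theorem psd_con {n k : ℕ} {A : M2 n} (hs : A.IsSymm) (hA : ∀ v, 0 ≤ rq A v) {X : Fin k → Fin n → ℝ}
    (hX : Con X) : ∑ i, rq A (X i) ≤ ∑ j, A j j := by
  obtain ⟨B, h1, h2⟩ := psd_sq hs hA
  rw [h2]
  simp only [h1]
  rw [Finset.sum_comm]
  exact Finset.sum_le_sum fun l _ => con_sq hX (B l)

/-! ## Curvature forms -/

/-- the form `R_z` -/
def Mz {n : ℕ} (R : T4 n) (z : Fin n → ℝ) : M2 n := fun p q => R4 R z (sb p) z (sb q)

theorem K2_R4 (hR4T : G_R4T) {n : ℕ} (R : T4 n) (u v : Fin n → ℝ) : K2 R u v = R4 R u v u v := (hR4T n).2.2.2.1 R u v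

theorem K2_comm (hR4T : G_R4T) {n : ℕ} {R : T4 n} (hR : IsCurv R) (u v : Fin n → ℝ) : K2 R u v = K2 R v u :=
  (hR4T n).2.2.2.2.1 R hR u v

theorem K2_Id (hR4T : G_R4T) {n : ℕ} (u v : Fin n → ℝ) : K2 (Id4 n) u v = wd u v := (hR4T n).2.2.2.2.2.2.1 u v

theorem R4_sb (hR4T : G_R4T) {n : ℕ} (R : T4 n) (i j k l : Fin n) : R4 R (sb i) (sb j) (sb k) (sb l) = R i j k l :=
  (hR4T n).2.2.2.2.2.2.2.2.2.1 R i j k l

theorem rq_Ric (hR4T : G_R4T) {n : ℕ} (R : T4 n) (v : Fin n → ℝ) : rq (Ric R) v = ∑ i, R4 R v (sb i) v (sb i) :=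
  (hR4T n).2.2.2.2.2.2.2.2.2.2.2.2 R v

theorem Mz_symm (hR4T : G_R4T) {n : ℕ} {R : T4 n} (hR : IsCurv R) (z : Fin n → ℝ) : (Mz R z).IsSymm := by
  ext p q
  show R4 R z (sb q) z (sb p) = R4 R z (sb p) z (sb q)
  exact ((hR4T n).2.2.1 R hR z (sb q) z (sb p)).2.2.1

theorem Mz_rq (hR4T : G_R4T) {n : ℕ} (R : T4 n) (z v : Fin n → ℝ) : rq (Mz R z) v = K2 R z v := by
  rw [K2_R4 hR4T, ((hR4T n).2.2.2.2.2.2.2.2.2.2.1 R z v z v).2.1]
  unfold rq Mz
  refine Finset.sum_congr rfl fun p _ => ?_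
  rw [((hR4T n).2.2.2.2.2.2.2.2.2.2.1 R z (sb p) z v).2.2.2, Finset.mul_sum]
  exact Finset.sum_congr rfl fun q _ => by ring

theorem Mz_tr (hR4T : G_R4T) {n : ℕ} (R : T4 n) (z : Fin n → ℝ) : ∑ j, Mz R z j j = rq (Ric R) z := by
  rw [rq_Ric hR4T]
  rfl

theorem K2_self (hR4T : G_R4T) {n : ℕ} {R : T4 n} (hR : IsCurv R) (v : Fin n → ℝ) : K2 R v v = 0 := by
  rw [K2_R4 hR4T]
  have := ((hR4T n).2.2.1 R hR v v v v).1
  linarith

theorem K2_zero (hR4T : G_R4T) {n : ℕ} (R : T4 n) (v : Fin n → ℝ) : K2 R 0 v = 0 := by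
  rw [K2_R4 hR4T]
  unfold R4
  simp

/-- `∑ K(z, X_i) ≤ Ric(z,z)` for a contraction `X` -/
theorem sum_K2_le (hR4T : G_R4T) {n k : ℕ} {S : T4 n} (hS : IsCurv S) {z : Fin n → ℝ} (h0 : ∀ v, 0 ≤ K2 S z v)
    {X : Fin k → Fin n → ℝ} (hX : Con X) : ∑ i, K2 S z (X i) ≤ rq (Ric S) z := by
  have h := psd_con (Mz_symm hR4T hS z) (fun v => by rw [Mz_rq hR4T]; exact h0 v) hX
  rw [Mz_tr hR4T] at h
  simpa only [Mz_rq hR4T] using h

theorem Ric_symm {n : ℕ} {S : T4 n} (hS : IsCurv S) : (Ric S).IsSymm := by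
  ext a c
  show ∑ b, S c b a b = ∑ b, S a b c b
  exact Finset.sum_congr rfl fun b _ => hS.pair c b a b

theorem n_lam {n : ℕ} (hn : 1 ≤ n) (S : T4 n) : (n : ℝ) * lam S = ∑ a, Ric S a a := by
  unfold lam
  have : (n : ℝ) ≠ 0 := by positivity
  field_simp

theorem rq_sub {n : ℕ} (A B : M2 n) (v : Fin n → ℝ) : rq (A - B) v = rq A v - rq B v := by
  unfold rq
  rw [← Finset.sum_sub_distrib]
  refine Finset.sum_congr rfl fun i _ => ?_
  rw [← Finset.sum_sub_distrib]
  refine Finset.sum_congr rfl fun j _ => ?_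
  show (A i j - B i j) * v i * v j = _
  ring

theorem K2_smul_right {n : ℕ} (S : T4 n) (s : ℝ) (u v : Fin n → ℝ) :
    K2 S u (fun i => s * v i) = s ^ 2 * K2 S u v := by
  unfold K2
  rw [Finset.mul_sum]
  refine Finset.sum_congr rfl fun a _ => ?_
  rw [Finset.mul_sum]
  refine Finset.sum_congr rfl fun b _ => ?_
  rw [Finset.mul_sum]
  refine Finset.sum_congr rfl fun c _ => ?_
  rw [Finset.mul_sum]
  exact Finset.sum_congr rfl fun d _ => by ring

/-- `K(x,v) ≤ Ric(x,x) |v|²` -/
theorem K2_le_Ric (hR4T : G_R4T) {n : ℕ} {S : T4 n} (hS : IsCurv S) {z : Fin n → ℝ} (h0 : ∀ v, 0 ≤ K2 S z v)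
    (v : Fin n → ℝ) : K2 S z v ≤ rq (Ric S) z * nrm v := by
  rcases (nrm_nonneg v).eq_or_lt with h | h
  · have hv : v = 0 := nrm_eq_zero h.symm
    have : K2 S z 0 = 0 := by
      rw [K2_comm hR4T hS, K2_zero hR4T]
    rw [← h, hv, this]
    simp
  · set s : ℝ := (Real.sqrt (nrm v))⁻¹ with hs
    have hs2 : s ^ 2 * nrm v = 1 := by
      rw [hs, inv_pow, Real.sq_sqrt h.le]
      field_simp
    have hn : nrm (fun i => s * v i) = s ^ 2 * nrm v := by
      unfold nrm
      rw [Finset.mul_sum]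
      exact Finset.sum_congr rfl fun i _ => by ring
    have h1 := sum_K2_le hR4T hS h0 (con_one (v := fun i => s * v i) (by rw [hn, hs2]))
    simp only [Finset.univ_unique, Finset.sum_singleton] at h1
    rw [K2_smul_right] at h1
    have h2 : s ^ 2 * K2 S z v * nrm v ≤ rq (Ric S) z * nrm v := mul_le_mul_of_nonneg_right h1 h.le
    calc K2 S z v = (s ^ 2 * nrm v) * K2 S z v := by rw [hs2, one_mul]
      _ = s ^ 2 * K2 S z v * nrm v := by ring
      _ ≤ _ := h2

theorem Ric_nonneg (hR4T : G_R4T) {n : ℕ} {S : T4 n} (h0 : ∀ u v, 0 ≤ K2 S u v)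
    (v : Fin n → ℝ) : 0 ≤ rq (Ric S) v := by
  rw [rq_Ric hR4T]
  refine Finset.sum_nonneg fun i _ => ?_
  rw [← K2_R4 hR4T]
  exact h0 _ _

/-- `2 Ric(v,v) ≤ n λ` for unit vectors -/
theorem two_Ric (hR4T : G_R4T) {n : ℕ} (hn : 1 ≤ n) {S : T4 n} (hS : IsCurv S) (h0 : ∀ u v, 0 ≤ K2 S u v)
    {v : Fin n → ℝ} (hv : nrm v = 1) : 2 * rq (Ric S) v ≤ n * lam S := by
  have h := psd_con (A := Ric S - Mz S v) (X := fun _ : Fin 1 => v) ((Ric_symm hS).sub (Mz_symm hR4T hS v))
    (fun x => by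
      rw [rq_sub, Mz_rq hR4T, K2_comm hR4T hS v x]
      have := K2_le_Ric hR4T hS (h0 x) v
      rw [hv, mul_one] at this
      linarith) (con_one hv.le)
  simp only [Finset.univ_unique, Finset.sum_singleton] at h
  rw [rq_sub, Mz_rq hR4T, K2_self hR4T hS] at h
  have e : ∑ j, (Ric S - Mz S v) j j = (∑ j, Ric S j j) - ∑ j, Mz S v j j := by
    rw [← Finset.sum_sub_distrib]
    rfl
  rw [e, Mz_tr hR4T, ← n_lam hn] at h
  linarith

theorem rq_smul_vec {n : ℕ} (A : M2 n) (s : ℝ) (v : Fin n → ℝ) : rq A (fun i => s * v i) = s ^ 2 * rq A v := by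
  unfold rq
  rw [Finset.mul_sum]
  refine Finset.sum_congr rfl fun i _ => ?_
  rw [Finset.mul_sum]
  exact Finset.sum_congr rfl fun j _ => by ring

theorem two_Ric' (hR4T : G_R4T) {n : ℕ} (hn : 1 ≤ n) {S : T4 n} (hS : IsCurv S) (h0 : ∀ u v, 0 ≤ K2 S u v)
    (v : Fin n → ℝ) : 2 * rq (Ric S) v ≤ n * lam S * nrm v := by
  rcases (nrm_nonneg v).eq_or_lt with h | h
  · have hv : v = 0 := nrm_eq_zero h.symm
    rw [← h, hv]
    unfold rq
    simp
  · set s : ℝ := (Real.sqrt (nrm v))⁻¹ with hs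
    have hs2 : s ^ 2 * nrm v = 1 := by
      rw [hs, inv_pow, Real.sq_sqrt h.le]
      field_simp
    have hnn : nrm (fun i => s * v i) = s ^ 2 * nrm v := by
      unfold nrm
      rw [Finset.mul_sum]
      exact Finset.sum_congr rfl fun i _ => by ring
    have h1 := two_Ric hR4T hn hS h0 (v := fun i => s * v i) (by rw [hnn, hs2])
    rw [rq_smul_vec] at h1
    have h2 := mul_le_mul_of_nonneg_right h1 h.le
    have e : 2 * (s ^ 2 * rq (Ric S) v) * nrm v = (s ^ 2 * nrm v) * (2 * rq (Ric S) v) := by ring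
    rw [e, hs2, one_mul] at h2
    exact h2

/-! ## Tensors in the cone `FG` -/

/-- comparison of two planes -/
theorem planes (hR4T : G_R4T) (hFG1 : G_FG1) {n : ℕ} {R : T4 n} (hR : FG R) (u v u' v' : Fin n → ℝ) :
    K2 R u v * wd u' v' ≤ 16 * K2 R u' v' * wd u v := by
  have hC := hR.1
  have hK : ∀ a b, 0 ≤ K2 R a b := (hFG1 n).2.2.2.2.2.2.1 R hR
  have hfl : ∀ z x y, K2 R x z * wd y z ≤ 4 * K2 R y z * wd x z := by
    intro z x y
    have := hR.2 z x y
    unfold fl at this
    linarith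
  have key : ∀ c y, wd c u ≠ 0 → K2 R u v * wd y c ≤ 16 * K2 R y c * wd u v := by
    intro c y hc
    have hcp : 0 < wd c u := lt_of_le_of_ne (wd_nonneg _ _) (Ne.symm hc)
    have h1 := hfl u v c
    have h2 := hfl c u y
    rw [K2_comm hR4T hC v u, wd_comm v u] at h1
    rw [K2_comm hR4T hC u c, wd_comm u c] at h2
    have h3 : K2 R u v * wd c u * wd y c ≤ 4 * K2 R c u * wd u v * wd y c :=
      mul_le_mul_of_nonneg_right h1 (wd_nonneg _ _)
    have h4 : 4 * (K2 R c u * wd y c) * wd u v ≤ 4 * (4 * K2 R y c * wd c u) * wd u v :=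
      mul_le_mul_of_nonneg_right (by linarith) (wd_nonneg _ _)
    have h5 : (K2 R u v * wd y c) * wd c u ≤ (16 * K2 R y c * wd u v) * wd c u := by
      calc (K2 R u v * wd y c) * wd c u = K2 R u v * wd c u * wd y c := by ring
        _ ≤ 4 * K2 R c u * wd u v * wd y c := h3
        _ = 4 * (K2 R c u * wd y c) * wd u v := by ring
        _ ≤ 4 * (4 * K2 R y c * wd c u) * wd u v := h4
        _ = _ := by ring
    exact le_of_mul_le_mul_right h5 hcp
  by_cases h1 : wd u' u = 0
  · by_cases h2 : wd v' u = 0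
    · by_cases h3 : nrm u = 0
      · have hu : u = 0 := nrm_eq_zero h3
        rw [hu, K2_zero hR4T]
        have : wd (0 : Fin n → ℝ) v = 0 := by
          unfold wd nrm dot
          simp
        rw [this]
        simp
      · have hz : wd u' v' = 0 := by
          have e1 : prj u u' = 0 := by
            have := prj_nrm u' h3
            rw [wd_comm, h1] at this
            exact nrm_eq_zero ((mul_eq_zero.1 this).resolve_left h3)
          have e2 : prj u v' = 0 := by
            have := prj_nrm v' h3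
            rw [wd_comm, h2] at this
            exact nrm_eq_zero ((mul_eq_zero.1 this).resolve_left h3)
          have f1 : u' = fun i => (dot u u' / nrm u) * u i := by
            funext i
            have := congrFun e1 i
            unfold prj at this
            simp only [Pi.zero_apply] at this
            linarith
          have f2 : v' = fun i => (dot u v' / nrm u) * u i := by
            funext i
            have := congrFun e2 i
            unfold prj at this
            simp only [Pi.zero_apply] at this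
            linarith
          generalize dot u u' / nrm u = s at f1
          generalize dot u v' / nrm u = t at f2
          rw [f1, f2]
          unfold wd nrm dot
          have g1 : ∀ r : ℝ, ∑ i, (r * u i) ^ 2 = r ^ 2 * ∑ i, u i ^ 2 := by
            intro r
            rw [Finset.mul_sum]
            exact Finset.sum_congr rfl fun i _ => by ring
          have g2 : ∑ i, s * u i * (t * u i) = s * t * ∑ i, u i ^ 2 := by
            rw [Finset.mul_sum]
            exact Finset.sum_congr rfl fun i _ => by ring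
          rw [g1, g1, g2]
          ring
        rw [hz, mul_zero]
        have := hK u' v'
        have := wd_nonneg u v
        positivity
    · have := key v' u' h2
      exact this
  · have := key u' v' h1
    rw [wd_comm u' v', K2_comm hR4T hC u' v']
    exact this

/-- `K ≥ λ/(16(n-1))` -/
theorem K2_ge (hR4T : G_R4T) (hFG1 : G_FG1) {n : ℕ} (hn : 4 ≤ n) {R : T4 n} (hR : FG R) (u v : Fin n → ℝ) :
    lam R / (16 * ((n : ℝ) - 1)) * wd u v ≤ K2 R u v := by
  have hn4 : (4 : ℝ) ≤ n := by exact_mod_cast hn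
  have h1 : ∀ a b : Fin n, R a b a b * wd u v ≤ 16 * K2 R u v * (if a = b then 0 else 1) := by
    intro a b
    have h := planes hR4T hFG1 hR (sb a) (sb b) u v
    rw [K2_R4 hR4T R (sb a) (sb b), R4_sb hR4T] at h
    have e : wd (sb a) (sb b) = if a = b then (0 : ℝ) else 1 := by
      unfold wd
      rw [nrm_sb, nrm_sb, dot_sb]
      unfold sb
      split_ifs <;> simp
    rw [e] at h
    exact h
  have h2 : (∑ a, ∑ b, R a b a b) * wd u v ≤ 16 * K2 R u v * (∑ a : Fin n, ∑ b : Fin n, if a = b then (0 : ℝ) else 1) := by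
    rw [Finset.sum_mul, Finset.mul_sum]
    refine Finset.sum_le_sum fun a _ => ?_
    rw [Finset.sum_mul, Finset.mul_sum]
    exact Finset.sum_le_sum fun b _ => h1 a b
  have h3 : (∑ a : Fin n, ∑ b : Fin n, if a = b then (0 : ℝ) else 1) = n * ((n : ℝ) - 1) := by
    have : ∀ a : Fin n, (∑ b : Fin n, if a = b then (0 : ℝ) else 1) = (n : ℝ) - 1 := by
      intro a
      have : ∀ b : Fin n, (if a = b then (0 : ℝ) else 1) = 1 - (if a = b then 1 else 0) := by
        intro b
        split_ifs <;> simp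
      simp only [this, Finset.sum_sub_distrib]
      simp
    simp only [this, Finset.sum_const, Finset.card_univ, Fintype.card_fin, nsmul_eq_mul]
  have h4 : (∑ a, ∑ b, R a b a b) = n * lam R := by
    rw [n_lam (by omega)]
    rfl
  rw [h3, h4] at h2
  rw [div_mul_eq_mul_div, div_le_iff₀ (by linarith)]
  have hnp : (0 : ℝ) < n := by linarith
  have h5 : (n : ℝ) * (lam R * wd u v) ≤ n * (K2 R u v * (16 * ((n : ℝ) - 1))) := by nlinarith
  exact le_of_mul_le_mul_left h5 hnp

theorem Ric_Id4 {n : ℕ} (hLN : Goal_LN) (v : Fin n → ℝ) : rq (Ric (Id4 n)) v = ((n : ℝ) - 1) * nrm v := by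
  obtain ⟨-, -, -, -, -, -, -, -, h9, -, -, -, h13, h14⟩ := hLN n
  rw [h9, h13, h14]

theorem K2_Id_add (hR4T : G_R4T) {n : ℕ} (R : T4 n) (c : ℝ) (u v : Fin n → ℝ) :
    K2 (R + c • Id4 n) u v = K2 R u v + c * wd u v := by
  rw [K2_R4 hR4T, ((hR4T n).2.1 R (c • Id4 n) u v u v 0).1, ((hR4T n).2.1 (Id4 n) 0 u v u v c).2,
    ← K2_R4 hR4T, ← K2_R4 hR4T, K2_Id hR4T]

theorem Ric_Id_add (hLN : Goal_LN) {n : ℕ} (R : T4 n) (c : ℝ) (v : Fin n → ℝ) :
    rq (Ric (R + c • Id4 n)) v = rq (Ric R) v + c * (((n : ℝ) - 1) * nrm v) := by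
  obtain ⟨-, -, h3, h4, -, -, -, -, -, -, -, h12, h13, -⟩ := hLN n
  rw [h3, h12, h4, h13, Ric_Id4 hLN]

theorem lam_Id_add (hLN : Goal_LN) {n : ℕ} (hn : 1 ≤ n) (R : T4 n) (c : ℝ) :
    lam (R + c • Id4 n) = lam R + c * ((n : ℝ) - 1) := by
  obtain ⟨-, -, -, -, h5, h6, -, -, -, h10, -, -, -, -⟩ := hLN n
  rw [h5, h6, h10 hn]

theorem IsCurv_add {n : ℕ} {R S : T4 n} (hR : IsCurv R) (hS : IsCurv S) : IsCurv (R + S) where
  a12 a b c d := by
    show R a b c d + S a b c d = -(R b a c d + S b a c d)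
    rw [hR.a12 a b c d, hS.a12 a b c d]; ring
  a34 a b c d := by
    show R a b c d + S a b c d = -(R a b d c + S a b d c)
    rw [hR.a34 a b c d, hS.a34 a b c d]; ring
  pair a b c d := by
    show R a b c d + S a b c d = R c d a b + S c d a b
    rw [hR.pair a b c d, hS.pair a b c d]
  bian a b c d := by
    show R a b c d + S a b c d + (R b c a d + S b c a d) + (R c a b d + S c a b d) = 0
    have := hR.bian a b c d
    have := hS.bian a b c d
    linarith

theorem IsCurv_smul {n : ℕ} {R : T4 n} (t : ℝ) (hR : IsCurv R) : IsCurv (t • R) where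
  a12 a b c d := by
    show t * R a b c d = -(t * R b a c d)
    rw [hR.a12 a b c d]; ring
  a34 a b c d := by
    show t * R a b c d = -(t * R a b d c)
    rw [hR.a34 a b c d]; ring
  pair a b c d := by
    show t * R a b c d = t * R c d a b
    rw [hR.pair a b c d]
  bian a b c d := by
    show t * R a b c d + t * R b c a d + t * R c a b d = 0
    have := hR.bian a b c d
    have e : t * (R a b c d + R b c a d + R c a b d) = 0 := by rw [this, mul_zero]
    linarith

theorem IsCurv_Id4 (n : ℕ) : IsCurv (Id4 n) where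
  a12 a b c d := by
    unfold Id4 wdg
    ring
  a34 a b c d := by
    unfold Id4 wdg
    ring
  pair a b c d := by
    unfold Id4 wdg
    have h : ∀ i j, (1 : M2 n) i j = (1 : M2 n) j i := fun i j => by
      rw [Matrix.one_apply, Matrix.one_apply]
      simp only [eq_comm]
    rw [h c a, h d b, h c b, h d a]
    ring
  bian a b c d := by
    unfold Id4 wdg
    have h : ∀ i j, (1 : M2 n) i j = (1 : M2 n) j i := fun i j => by
      rw [Matrix.one_apply, Matrix.one_apply]
      simp only [eq_comm]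
    rw [h b a, h c a, h c b]
    ring

/-- lower bound of a trace minus a contracted trace -/
theorem Ric_sub_ge (hR4T : G_R4T) (hLN : Goal_LN) {n k : ℕ} {R : T4 n} (hR : IsCurv R) {z : Fin n → ℝ} {m : ℝ} (hm : 0 ≤ m)
    (h0 : ∀ v, m * wd z v ≤ K2 R z v) {X : Fin k → Fin n → ℝ} (hX : Con X) :
    m * ((n : ℝ) - 1 - k) * nrm z ≤ rq (Ric R) z - ∑ i, K2 R z (X i) := by
  have hS : IsCurv (R + (-m) • Id4 n) := IsCurv_add hR (IsCurv_smul _ (IsCurv_Id4 n))
  have h := sum_K2_le hR4T hS (z := z) (fun v => by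
    rw [K2_Id_add hR4T]
    have := h0 v
    linarith) hX
  simp only [K2_Id_add hR4T, Ric_Id_add hLN] at h
  rw [Finset.sum_add_distrib, ← Finset.mul_sum] at h
  have h2 : ∑ i, wd z (X i) ≤ ∑ _i : Fin k, nrm z := by
    refine Finset.sum_le_sum fun i _ => ?_
    have h3 := con_nrm hX i
    have h4 := nrm_nonneg z
    have h5 := wd_le z (X i)
    nlinarith
  rw [Finset.sum_const, Finset.card_univ, Fintype.card_fin, nsmul_eq_mul] at h2
  have h6 : m * ∑ i, wd z (X i) ≤ m * (k * nrm z) := mul_le_mul_of_nonneg_left h2 hm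
  nlinarith

theorem elk_nonneg (hR4T : G_R4T) (hFG1 : G_FG1) (hLN : Goal_LN) {n : ℕ} {R : T4 n} (hR : FG R) {k : ℕ}
    (z : Fin n → ℝ) {X : Fin k → Fin n → ℝ} (hX : Con X) (hk : k + 2 ≤ n) : 0 ≤ elk k R z X := by
  have hC := hR.1
  have hK : ∀ a b, 0 ≤ K2 R a b := (hFG1 n).2.2.2.2.2.2.1 R hR
  have hfl : ∀ z x y, K2 R z x * wd z y ≤ 4 * K2 R z y * wd z x := by
    intro z x y
    have := hR.2 z x y
    unfold fl at this
    rw [K2_comm hR4T hC z x, K2_comm hR4T hC z y, wd_comm z y, wd_comm z x]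
    linarith
  rcases Nat.eq_zero_or_pos k with h0 | h0
  · subst h0
    unfold elk
    simp
  by_cases hz : nrm z = 0
  · have hz0 : z = 0 := nrm_eq_zero hz
    have h1 : rq (Ric R) z = 0 := by
      rw [hz0]
      unfold rq
      simp
    unfold elk
    rw [h1]
    simp only [hz0, K2_zero hR4T]
    simp
  have hzp : 0 < nrm z := lt_of_le_of_ne (nrm_nonneg _) (Ne.symm hz)
  have hkp : (0 : ℝ) < k := by exact_mod_cast h0
  set T : ℝ := ∑ i, K2 R z (X i) with hT
  have hT0 : 0 ≤ T := Finset.sum_nonneg fun i _ => hK _ _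
  have h2 : ∑ i, wd z (X i) ≤ k * nrm z := by
    have : ∑ i, wd z (X i) ≤ ∑ _i : Fin k, nrm z := by
      refine Finset.sum_le_sum fun i _ => ?_
      have h3 := con_nrm hX i
      have h4 := nrm_nonneg z
      have h5 := wd_le z (X i)
      nlinarith
    rwa [Finset.sum_const, Finset.card_univ, Fintype.card_fin, nsmul_eq_mul] at this
  have h3 : ∀ v, T / (4 * k * nrm z) * wd z v ≤ K2 R z v := by
    intro v
    have h4 : T * wd z v ≤ 4 * K2 R z v * ∑ i, wd z (X i) := by
      rw [hT, Finset.sum_mul, Finset.mul_sum]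
      exact Finset.sum_le_sum fun i _ => hfl z (X i) v
    have h5 : 4 * K2 R z v * ∑ i, wd z (X i) ≤ 4 * K2 R z v * (k * nrm z) :=
      mul_le_mul_of_nonneg_left h2 (by have := hK z v; linarith)
    rw [div_mul_eq_mul_div, div_le_iff₀ (by positivity)]
    linarith
  have h6 := Ric_sub_ge hR4T hLN hC (z := z) (m := T / (4 * k * nrm z)) (by positivity) h3 hX
  rw [← hT] at h6
  have h7 : T / (4 * k * nrm z) * ((n : ℝ) - 1 - k) * nrm z = T * ((n : ℝ) - 1 - k) / (4 * k) := by
    field_simp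
  rw [h7, div_le_iff₀ (by positivity)] at h6
  unfold elk
  rw [← hT]
  nlinarith

/-- packet FG2 -/
theorem g_FG2 (hR4T : G_R4T) (hFG1 : G_FG1) (hNW : G_NW) (hCB : Goal_CB) (hLN : Goal_LN) : G_FG2 := by
  intro n hn R hR
  have hn4 : (4 : ℝ) ≤ n := by exact_mod_cast hn
  have hC := hR.1
  have hK : ∀ a b, 0 ≤ K2 R a b := (hFG1 n).2.2.2.2.2.2.1 R hR
  have hC0 : C0 R := (hNW n hn).2.1 R hR
  obtain ⟨hl, hb, hr0, -, -⟩ := hCB n (by omega) R hC0
  have hge := K2_ge hR4T hFG1 hn hR
  have hzero : lam R = 0 → R = 0 := by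
    intro h
    funext a b c d
    have := hb a b c d
    rw [h, mul_zero] at this
    exact abs_nonpos_iff.1 this
  set κ : ℝ := lam R / (16 * ((n : ℝ) - 1)) with hκ
  have hκ0 : 0 ≤ κ := div_nonneg hl (by linarith)
  have hκ1 : κ * ((n : ℝ) - 1) = lam R / 16 := by
    rw [hκ]
    have : (n : ℝ) - 1 ≠ 0 := by linarith
    field_simp
  have hS : IsCurv (R + (-κ) • Id4 n) := IsCurv_add hC (IsCurv_smul _ (IsCurv_Id4 n))
  have hS0 : ∀ u v, 0 ≤ K2 (R + (-κ) • Id4 n) u v := by
    intro u v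
    rw [K2_Id_add hR4T]
    have := hge u v
    linarith
  have hRicle : ∀ v, rq (Ric R) v ≤ ((n : ℝ) / 2 - ((n : ℝ) - 2) / 32) * lam R * nrm v := by
    intro v
    have h := two_Ric' hR4T (by omega) hS hS0 v
    rw [Ric_Id_add hLN, lam_Id_add hLN (by omega)] at h
    have e1 : -κ * (((n : ℝ) - 1) * nrm v) = -(lam R / 16) * nrm v := by rw [← hκ1]; ring
    have e2 : -κ * ((n : ℝ) - 1) = -(lam R / 16) := by rw [← hκ1]; ring
    rw [e1, e2] at h
    linarith
  have hRicge : ∀ v, lam R / 16 * nrm v ≤ rq (Ric R) v := by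
    intro v
    have h := Ric_nonneg hR4T hS0 v
    rw [Ric_Id_add hLN] at h
    have e1 : -κ * (((n : ℝ) - 1) * nrm v) = -(lam R / 16) * nrm v := by rw [← hκ1]; ring
    rw [e1] at h
    linarith
  have hRic0 : ∀ a b, |Ric0 R a b| ≤ 2 * (n : ℝ) ^ 2 * lam R := by
    intro a b
    have h1 : |Ric R a b| ≤ (n : ℝ) ^ 2 * lam R := by
      unfold Ric
      calc |∑ c, R a c b c| ≤ ∑ c, |R a c b c| := Finset.abs_sum_le_sum_abs _ _
        _ ≤ ∑ _c : Fin n, (n : ℝ) * lam R := Finset.sum_le_sum fun c _ => hb _ _ _ _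
        _ = (n : ℝ) ^ 2 * lam R := by
          rw [Finset.sum_const, Finset.card_univ, Fintype.card_fin, nsmul_eq_mul]; ring
    have h2 : |(lam R • (1 : M2 n)) a b| ≤ (n : ℝ) ^ 2 * lam R := by
      rw [Matrix.smul_apply, Matrix.one_apply, smul_eq_mul]
      split_ifs
      · rw [mul_one, abs_of_nonneg hl]
        have h5 : (1 : ℝ) ≤ (n : ℝ) ^ 2 := by nlinarith
        have := mul_le_mul_of_nonneg_right h5 hl
        linarith
      · rw [mul_zero, abs_zero]
        positivity
    have h3 : Ric0 R a b = Ric R a b - (lam R • (1 : M2 n)) a b := rfl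
    rw [h3]
    calc |Ric R a b - (lam R • (1 : M2 n)) a b| ≤ |Ric R a b| + |(lam R • (1 : M2 n)) a b| := abs_sub _ _
      _ ≤ _ := by linarith
  refine ⟨hl, hb, hge, ?_, planes hR4T hFG1 hR, hRicge, hRicle, hRic0, ?_, hzero, ?_, ?_⟩
  · intro u v
    by_cases hu : nrm u = 0
    · have hu0 : u = 0 := nrm_eq_zero hu
      rw [hu0, K2_zero hR4T]
      have := wd_nonneg (0 : Fin n → ℝ) v
      positivity
    · have hup : 0 < nrm u := lt_of_le_of_ne (nrm_nonneg _) (Ne.symm hu)
      have h1 : K2 R u v = K2 R u (prj u v) := by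
        have e : prj u v = fun i => 1 * v i + (-(dot u v / nrm u)) * u i := rfl
        have hz1 : R4 R u u u v = 0 := by
          have := ((hR4T n).2.2.1 R hC u u u v).1
          linarith
        have hz2 : R4 R u v u u = 0 := by
          have := ((hR4T n).2.2.1 R hC u v u u).2.1
          linarith
        have hz3 : R4 R u u u u = 0 := by
          have := ((hR4T n).2.2.1 R hC u u u u).1
          linarith
        have e2 : ∀ w, R4 R u (prj u v) u w = 1 * R4 R u v u w + (-(dot u v / nrm u)) * R4 R u u u w := by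
          intro w
          rw [e]
          exact ((hR4T n).1 R v u u u w 1 (-(dot u v / nrm u))).2.1
        have e4 : ∀ w, R4 R u w u (prj u v) = 1 * R4 R u w u v + (-(dot u v / nrm u)) * R4 R u w u u := by
          intro w
          rw [e]
          exact ((hR4T n).1 R v u u w u 1 (-(dot u v / nrm u))).2.2.2
        rw [K2_R4 hR4T, K2_R4 hR4T, e2, e4, e4, hz1, hz2, hz3]
        ring
      have h2 := K2_le_Ric hR4T hC (hK u) (prj u v)
      have h3 : rq (Ric R) u ≤ n * lam R * nrm u := by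
        have h4 := hRicle u
        have h5 : ((n : ℝ) / 2 - ((n : ℝ) - 2) / 32) * lam R * nrm u ≤ n * lam R * nrm u := by
          have : 0 ≤ lam R * nrm u := mul_nonneg hl hup.le
          nlinarith
        linarith
      rw [h1, ← prj_nrm v hu]
      calc K2 R u (prj u v) ≤ rq (Ric R) u * nrm (prj u v) := h2
        _ ≤ n * lam R * nrm u * nrm (prj u v) := mul_le_mul_of_nonneg_right h3 (nrm_nonneg _)
        _ = _ := by ring
  · unfold hh
    calc ∑ a, ∑ b, Ric0 R a b ^ 2 ≤ ∑ _a : Fin n, ∑ _b : Fin n, (2 * (n : ℝ) ^ 2 * lam R) ^ 2 := by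
          refine Finset.sum_le_sum fun a _ => Finset.sum_le_sum fun b _ => ?_
          rw [← sq_abs]
          exact pow_le_pow_left₀ (abs_nonneg _) (hRic0 a b) 2
      _ = 4 * (n : ℝ) ^ 6 * lam R ^ 2 := by
          simp only [Finset.sum_const, Finset.card_univ, Fintype.card_fin, nsmul_eq_mul]
          ring
  · rintro ⟨u, v, hw, hk⟩
    refine hzero ?_
    have h1 := hge u v
    rw [hk] at h1
    have hwp : 0 < wd u v := lt_of_le_of_ne (wd_nonneg _ _) (Ne.symm hw)
    have h2 : κ ≤ 0 := by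
      by_contra h
      push Not at h
      have := mul_pos h hwp
      linarith
    have h3 : κ = 0 := le_antisymm h2 hκ0
    rw [h3, zero_mul] at hκ1
    linarith
  · intro k z X hk hX
    exact elk_nonneg hR4T hFG1 hLN hR z hX hk

end Pool.Agent.Helper12.FLG
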