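import Pool.Agent.Helper47.FLG.Alg2

/-!
# Project FLG, packet OD1 : the spectrum on the complement of a null 4-space
-/

namespace Pool.Agent.Helper12.FLG

open Finset Pool.Agent.Helper47.RFn Pool.Agent.Helper47.FLG

/-! ## Scalar products -/

theorem nrm_dot' {n : ℕ} (u : Fin n → ℝ) : nrm u = dot u u := by
  unfold nrm dot
  exact Finset.sum_congr rfl fun i _ => by ring

theorem nrm_nonneg' {n : ℕ} (u : Fin n → ℝ) : 0 ≤ nrm u :=
  Finset.sum_nonneg fun _ _ => sq_nonneg _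

theorem nrm_zero' {n : ℕ} {u : Fin n → ℝ} (h : nrm u = 0) : u = 0 := by
  unfold nrm at h
  funext i
  have := (Finset.sum_eq_zero_iff_of_nonneg (fun i _ => sq_nonneg (u i))).1 h i (Finset.mem_univ i)
  simpa using this

theorem dot_symm {n : ℕ} (u v : Fin n → ℝ) : dot u v = dot v u := by
  unfold dot
  exact Finset.sum_congr rfl fun i _ => by ring

theorem dot_cmb {n : ℕ} (s t : ℝ) (u u' v : Fin n → ℝ) :
    dot (fun i => s * u i + t * u' i) v = s * dot u v + t * dot u' v := by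
  unfold dot
  rw [Finset.mul_sum, Finset.mul_sum, ← Finset.sum_add_distrib]
  exact Finset.sum_congr rfl fun i _ => by ring

theorem dot_cmb' {n : ℕ} (s t : ℝ) (u u' v : Fin n → ℝ) :
    dot v (fun i => s * u i + t * u' i) = s * dot v u + t * dot v u' := by
  rw [dot_symm, dot_cmb, dot_symm u, dot_symm u']

theorem dot_lc {n : ℕ} (e : Fin 4 → Fin n → ℝ) (a b c d : ℝ) (v : Fin n → ℝ) :
    dot (lc e a b c d) v = a * dot (e 0) v + b * dot (e 1) v + c * dot (e 2) v + d * dot (e 3) v := by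
  unfold dot lc
  simp only [Finset.mul_sum, ← Finset.sum_add_distrib]
  exact Finset.sum_congr rfl fun i _ => by ring

/-! ## Spectral theorem -/

/-- if all eigenvectors with eigenvalues other than `1, 4` are orthogonal to `q` then `(A-1)(A-4) q = 0` -/
theorem spec_two {n : ℕ} {A : M2 n} (hs : A.IsSymm) (q : Fin n → ℝ)
    (H : ∀ (w : Fin n → ℝ) (s : ℝ), A.mulVec w = s • w → s ≠ 1 → s ≠ 4 → dot q w = 0) :
    A.mulVec (A.mulVec q) = (5 : ℝ) • A.mulVec q - (4 : ℝ) • q := by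
  have hA : A.IsHermitian := by
    rw [Matrix.IsHermitian, Matrix.conjTranspose_eq_transpose_of_trivial]
    exact hs
  have hd : ∀ u v : Fin n → ℝ, dot (A.mulVec u) v = dot u (A.mulVec v) := by
    intro u v
    have h1 : dot (A.mulVec u) v = A.mulVec u ⬝ᵥ v := rfl
    have h2 : dot u (A.mulVec v) = u ⬝ᵥ A.mulVec v := rfl
    rw [h1, h2, Matrix.dotProduct_mulVec, ← Matrix.mulVec_transpose, hs.eq]
  have key : ∀ i, dot (A.mulVec (A.mulVec q) - ((5 : ℝ) • A.mulVec q - (4 : ℝ) • q)) (hA.eigenvectorBasis i).ofLp = 0 := by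
    intro i
    set w : Fin n → ℝ := (hA.eigenvectorBasis i).ofLp with hw
    have hwA : A.mulVec w = hA.eigenvalues i • w := hA.mulVec_eigenvectorBasis i
    set s := hA.eigenvalues i with hsd
    have e1 : dot (A.mulVec q) w = s * dot q w := by
      rw [hd, hwA]
      show q ⬝ᵥ (s • w) = _
      rw [dotProduct_smul]
      rfl
    have e2 : dot (A.mulVec (A.mulVec q)) w = s * (s * dot q w) := by
      rw [hd, hwA, ← e1]
      show A.mulVec q ⬝ᵥ (s • w) = _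
      rw [dotProduct_smul]
      rfl
    have e3 : dot (A.mulVec (A.mulVec q) - ((5 : ℝ) • A.mulVec q - (4 : ℝ) • q)) w
        = dot (A.mulVec (A.mulVec q)) w - (5 * dot (A.mulVec q) w - 4 * dot q w) := by
      show (A.mulVec (A.mulVec q) - ((5 : ℝ) • A.mulVec q - (4 : ℝ) • q)) ⬝ᵥ w = _
      rw [sub_dotProduct, sub_dotProduct, smul_dotProduct, smul_dotProduct]
      rfl
    rw [e3, e2, e1]
    by_cases h1 : s = 1
    · rw [h1]; ring
    by_cases h4 : s = 4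
    · rw [h4]; ring
    rw [H w s hwA h1 h4]
    ring
  have hz : WithLp.toLp 2 (A.mulVec (A.mulVec q) - ((5 : ℝ) • A.mulVec q - (4 : ℝ) • q)) = (0 : EuclideanSpace ℝ (Fin n)) := by
    apply hA.eigenvectorBasis.repr.injective
    ext i
    rw [OrthonormalBasis.repr_apply_apply, map_zero, PiLp.inner_apply]
    have := key i
    unfold dot at this
    rw [PiLp.zero_apply, ← this]
    refine Finset.sum_congr rfl fun j _ => ?_
    simp only [RCLike.inner_apply, conj_trivial]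
  have h2 := congrArg WithLp.ofLp hz
  have h3 : A.mulVec (A.mulVec q) - ((5 : ℝ) • A.mulVec q - (4 : ℝ) • q) = 0 := h2
  exact sub_eq_zero.1 h3

/-! ## Multilinearity -/

section
variable (hR4T : G_R4T) {n : ℕ}
include hR4T

theorem l1 (R : T4 n) (s t : ℝ) (a a' b c d : Fin n → ℝ) :
    R4 R (fun i => s * a i + t * a' i) b c d = s * R4 R a b c d + t * R4 R a' b c d := ((hR4T n).1 R a a' b c d s t).1

theorem l2 (R : T4 n) (s t : ℝ) (a a' b c d : Fin n → ℝ) :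
    R4 R b (fun i => s * a i + t * a' i) c d = s * R4 R b a c d + t * R4 R b a' c d := ((hR4T n).1 R a a' b c d s t).2.1

theorem l3 (R : T4 n) (s t : ℝ) (a a' b c d : Fin n → ℝ) :
    R4 R b c (fun i => s * a i + t * a' i) d = s * R4 R b c a d + t * R4 R b c a' d := ((hR4T n).1 R a a' b c d s t).2.2.1

theorem l4 (R : T4 n) (s t : ℝ) (a a' b c d : Fin n → ℝ) :
    R4 R b c d (fun i => s * a i + t * a' i) = s * R4 R b c d a + t * R4 R b c d a' := ((hR4T n).1 R a a' b c d s t).2.2.2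

theorem a12 {R : T4 n} (hR : IsCurv R) (a b c d : Fin n → ℝ) : R4 R a b c d = - R4 R b a c d :=
  ((hR4T n).2.2.1 R hR a b c d).1

theorem a34 {R : T4 n} (hR : IsCurv R) (a b c d : Fin n → ℝ) : R4 R a b c d = - R4 R a b d c :=
  ((hR4T n).2.2.1 R hR a b c d).2.1

theorem pr {R : T4 n} (hR : IsCurv R) (a b c d : Fin n → ℝ) : R4 R a b c d = R4 R c d a b :=
  ((hR4T n).2.2.1 R hR a b c d).2.2.1

theorem bi {R : T4 n} (hR : IsCurv R) (a b c d : Fin n → ℝ) : R4 R a b c d + R4 R b c a d + R4 R c a b d = 0 :=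
  ((hR4T n).2.2.1 R hR a b c d).2.2.2

omit hR4T in
theorem lcf (e : Fin 4 → Fin n → ℝ) (a b c d : ℝ) :
    lc e a b c d = fun i => 1 * (fun j => a * e 0 j + b * e 1 j) i + 1 * (fun j => c * e 2 j + d * e 3 j) i := by
  funext i
  unfold lc
  ring

theorem l1c (R : T4 n) (e : Fin 4 → Fin n → ℝ) (a b c d : ℝ) (x y z : Fin n → ℝ) :
    R4 R (lc e a b c d) x y z = a * R4 R (e 0) x y z + b * R4 R (e 1) x y z + c * R4 R (e 2) x y z + d * R4 R (e 3) x y z := by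
  rw [lcf, l1 hR4T, l1 hR4T, l1 hR4T]
  ring

theorem l2c (R : T4 n) (e : Fin 4 → Fin n → ℝ) (a b c d : ℝ) (x y z : Fin n → ℝ) :
    R4 R x (lc e a b c d) y z = a * R4 R x (e 0) y z + b * R4 R x (e 1) y z + c * R4 R x (e 2) y z + d * R4 R x (e 3) y z := by
  rw [lcf, l2 hR4T, l2 hR4T, l2 hR4T]
  ring

theorem l3c (R : T4 n) (e : Fin 4 → Fin n → ℝ) (a b c d : ℝ) (x y z : Fin n → ℝ) :
    R4 R x y (lc e a b c d) z = a * R4 R x y (e 0) z + b * R4 R x y (e 1) z + c * R4 R x y (e 2) z + d * R4 R x y (e 3) z := by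
  rw [lcf, l3 hR4T, l3 hR4T, l3 hR4T]
  ring

theorem k2 (R : T4 n) (u v : Fin n → ℝ) : K2 R u v = R4 R u v u v := (hR4T n).2.2.2.1 R u v

end

/-- null frame with vanishing reaction term -/
structure Gd {n : ℕ} (R : T4 n) (e : Fin 4 → Fin n → ℝ) : Prop where
  nv : NV R e
  z : qf (Q R) (cv (e 0) (e 1)) (cv (e 2) (e 3)) = 0

theorem Gd.uf (hNV1 : G_NV1) (hU2 : G_U2) (hCL : Goal_CL) {n : ℕ} (hn : 4 ≤ n) {R : T4 n} {e : Fin 4 → Fin n → ℝ}
    (h : Gd R e) (a b c d s t : ℝ) (h1 : a ^ 2 + b ^ 2 + c ^ 2 + d ^ 2 = 1) (h2 : s ^ 2 + t ^ 2 = 1) :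
    Gd R (ufr e a b c d s t) := by
  refine ⟨(hNV1 n hn R e h.nv).2.2.2 a b c d s t h1 h2, ?_⟩
  rw [(hU2 n e a b c d s t h.nv.on h1 h2).2 (Q R) ((hCL n).1 R h.nv.fg.1)]
  exact h.z

theorem perp_ufr {n : ℕ} {e : Fin 4 → Fin n → ℝ} {w : Fin n → ℝ} (h : perp4 e w) (a b c d s t : ℝ) :
    perp4 (ufr e a b c d s t) w := by
  have h0 := h 0
  have h1 := h 1
  have h2 := h 2
  have h3 := h 3
  rw [dot_symm] at h0 h1 h2 h3
  intro i
  rw [dot_symm]
  have key : ∀ a b c d : ℝ, dot (lc e a b c d) w = 0 := by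
    intro a b c d
    rw [dot_lc, h0, h1, h2, h3]
    ring
  fin_cases i
  · exact key _ _ _ _
  · exact key _ _ _ _
  · exact key _ _ _ _
  · exact key _ _ _ _

/-- the facts from EQF which are used -/
structure Ft {n : ℕ} (R : T4 n) (z x y : Fin n → ℝ) : Prop where
  b : ∀ q, dot q z = 0 → nrm q ≤ R4 R z q z q ∧ R4 R z q z q ≤ 4 * nrm q
  e4 : ∀ q, dot q z = 0 → R4 R z q z q = 4 * nrm q → Eg R z 4 q
  e1 : ∀ q, dot q z = 0 → R4 R z q z q = nrm q → Eg R z 1 q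
  x4 : Eg R z 4 x
  y1 : Eg R z 1 y
  k : ∀ q s, Eg R z s q → s ≠ 1 → dot q x = 0 → 4 * K2 R y q = K2 R x q

theorem Gd.ft (hNV1 : G_NV1) (hEQF : G_EQF) {n : ℕ} (hn : 4 ≤ n) {R : T4 n} {e : Fin 4 → Fin n → ℝ}
    (h : Gd R e) : Ft R (e 0) (e 1) (e 2) := by
  obtain ⟨hac, -, hd, -⟩ := hNV1 n hn R e h.nv
  obtain ⟨-, h1, h2, h3, h4, h5, h6⟩ := hEQF n R (e 0) (e 1) (e 2) hac
  obtain ⟨-, -, -, -, -, -, -, -, -, -, h7, -⟩ := h6 (hd h.z)
  exact ⟨h3, h4, h5, h1, h2, h7⟩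

/-- all facts for the frames with first vectors `e 0`, `e 1`, `e 2`, `e 3` -/
theorem Gd.fts (hNV1 : G_NV1) (hEQF : G_EQF) (hU2 : G_U2) (hCL : Goal_CL) {n : ℕ} (hn : 4 ≤ n) {R : T4 n}
    {e : Fin 4 → Fin n → ℝ} (h : Gd R e) :
    Ft R (e 0) (e 1) (e 2) ∧ Ft R (e 0) (e 1) (e 3) ∧ Ft R (e 1) (lc e (-1) 0 0 0) (e 3) ∧ Ft R (e 2) (e 3) (e 0) ∧
      Ft R (e 3) (lc e 0 0 (-1) 0) (e 1) := by
  have c0 : lc e 1 0 0 0 = e 0 := by funext i; unfold lc; ring
  have c1 : lc e 0 1 0 0 = e 1 := by funext i; unfold lc; ring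
  have c2 : lc e 0 0 1 0 = e 2 := by funext i; unfold lc; ring
  have c3 : lc e 0 0 0 1 = e 3 := by funext i; unfold lc; ring
  refine ⟨h.ft hNV1 hEQF hn, ?_, ?_, ?_, ?_⟩
  · have g := (h.uf hNV1 hU2 hCL hn 1 0 0 0 0 1 (by norm_num) (by norm_num)).ft hNV1 hEQF hn
    have g0 : ufr e 1 0 0 0 0 1 0 = e 0 := c0
    have g1 : ufr e 1 0 0 0 0 1 1 = e 1 := by
      show lc e (-0) 1 (-0) 0 = e 1
      rw [neg_zero, c1]
    have g2 : ufr e 1 0 0 0 0 1 2 = e 3 := by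
      show lc e (-(0 * 0 + 1 * 0)) (0 * 0 - 1 * 0) (0 * 1 + 1 * 0) (1 * 1 - 0 * 0) = e 3
      norm_num [c3]
    rwa [g0, g1, g2] at g
  · have g := (h.uf hNV1 hU2 hCL hn 0 1 0 0 (-1) 0 (by norm_num) (by norm_num)).ft hNV1 hEQF hn
    have g0 : ufr e 0 1 0 0 (-1) 0 0 = e 1 := c1
    have g1 : ufr e 0 1 0 0 (-1) 0 1 = lc e (-1) 0 0 0 := by
      show lc e (-1) 0 (-0) 0 = _
      rw [neg_zero]
    have g2 : ufr e 0 1 0 0 (-1) 0 2 = e 3 := by
      show lc e (-(-1 * 0 + 0 * 0)) (-1 * 0 - 0 * 0) (-1 * 0 + 0 * 1) (0 * 0 - -1 * 1) = e 3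
      norm_num [c3]
    rwa [g0, g1, g2] at g
  · have g := (h.uf hNV1 hU2 hCL hn 0 0 1 0 (-1) 0 (by norm_num) (by norm_num)).ft hNV1 hEQF hn
    have g0 : ufr e 0 0 1 0 (-1) 0 0 = e 2 := c2
    have g1 : ufr e 0 0 1 0 (-1) 0 1 = e 3 := by
      show lc e (-0) 0 (-0) 1 = _
      rw [neg_zero, c3]
    have g2 : ufr e 0 0 1 0 (-1) 0 2 = e 0 := by
      show lc e (-(-1 * 1 + 0 * 0)) (-1 * 0 - 0 * 1) (-1 * 0 + 0 * 0) (0 * 0 - -1 * 0) = e 0
      norm_num [c0]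
    rwa [g0, g1, g2] at g
  · have g := (h.uf hNV1 hU2 hCL hn 0 0 0 1 1 0 (by norm_num) (by norm_num)).ft hNV1 hEQF hn
    have g0 : ufr e 0 0 0 1 1 0 0 = e 3 := c3
    have g1 : ufr e 0 0 0 1 1 0 1 = lc e 0 0 (-1) 0 := by
      show lc e (-0) 0 (-1) 0 = _
      rw [neg_zero]
    have g2 : ufr e 0 0 0 1 1 0 2 = e 1 := by
      show lc e (-(1 * 0 + 0 * 1)) (1 * 1 - 0 * 0) (1 * 0 + 0 * 0) (0 * 0 - 1 * 0) = e 1
      norm_num [c1]
    rwa [g0, g1, g2] at g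

theorem W4 (hR4T : G_R4T) (hNV1 : G_NV1) (hEQF : G_EQF) (hU2 : G_U2) (hCL : Goal_CL) {n : ℕ} (hn : 4 ≤ n) {R : T4 n}
    {e : Fin 4 → Fin n → ℝ} (h : Gd R e) {w : Fin n → ℝ} (hw : perp4 e w) {s : ℝ} (hE : Eg R (e 0) s w) (hs : s ≠ 1) :
    Eg R (e 1) 4 w ∧ Eg R (e 2) 1 w ∧ Eg R (e 3) 1 w ∧ (w ≠ 0 → s = 4) := by
  obtain ⟨f012, f013, f1, f2, f3⟩ := h.fts hNV1 hEQF hU2 hCL hn
  have q1 := f012.k w s hE hs (hw 1)
  have q2 := f013.k w s hE hs (hw 1)
  have b1 := (f1.b w (hw 1)).2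
  have b2 := (f2.b w (hw 2)).1
  have b3 := (f3.b w (hw 3)).1
  rw [k2 hR4T, k2 hR4T] at q1 q2
  have r1 : R4 R (e 1) w (e 1) w = 4 * nrm w := by linarith
  have r2 : R4 R (e 2) w (e 2) w = nrm w := by linarith
  have r3 : R4 R (e 3) w (e 3) w = nrm w := by linarith
  have g1 := f1.e4 w (hw 1) r1
  refine ⟨g1, f2.e1 w (hw 2) r2, f3.e1 w (hw 3) r3, fun hne => ?_⟩
  have hd0 : dot w (lc e (-1) 0 0 0) = 0 := by
    rw [dot_symm, dot_lc, dot_symm, hw 0, dot_symm, hw 1, dot_symm, hw 2, dot_symm, hw 3]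
    ring
  have q3 := f1.k w 4 g1 (by norm_num) hd0
  rw [k2 hR4T, k2 hR4T, l1c hR4T, l3c hR4T] at q3
  have q4 : R4 R (e 0) w (e 0) w = s * nrm w := by
    rw [hE.2 w, ← nrm_dot']
  have q5 : s * nrm w = 4 * nrm w := by
    rw [← q4]
    linarith
  have hnz : nrm w ≠ 0 := fun h0 => hne (nrm_zero' h0)
  exact mul_right_cancel₀ hnz q5

/-- the form `R_z` as a matrix -/
def Az {n : ℕ} (R : T4 n) (z : Fin n → ℝ) : M2 n := fun p q => R4 R z (sb p) z (sb q)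

theorem Az_mulVec (hR4T : G_R4T) {n : ℕ} (R : T4 n) (z v : Fin n → ℝ) (j : Fin n) :
    (Az R z).mulVec v j = R4 R z (sb j) z v := by
  rw [((hR4T n).2.2.2.2.2.2.2.2.2.2.1 R z (sb j) z v).2.2.2]
  unfold Matrix.mulVec dotProduct Az
  exact Finset.sum_congr rfl fun i _ => by ring

theorem Az_dot (hR4T : G_R4T) {n : ℕ} (R : T4 n) (z p v : Fin n → ℝ) :
    R4 R z p z v = dot p ((Az R z).mulVec v) := by
  rw [((hR4T n).2.2.2.2.2.2.2.2.2.2.1 R z p z v).2.1]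
  unfold dot
  exact Finset.sum_congr rfl fun i _ => by rw [Az_mulVec hR4T]

theorem Az_symm (hR4T : G_R4T) {n : ℕ} {R : T4 n} (hR : IsCurv R) (z : Fin n → ℝ) : (Az R z).IsSymm := by
  ext p q
  show R4 R z (sb q) z (sb p) = R4 R z (sb p) z (sb q)
  exact pr hR4T hR _ _ _ _

/-- first claim of OD1 -/
theorem split4 (hR4T : G_R4T) (hNV1 : G_NV1) (hEQF : G_EQF) (hU2 : G_U2) (hCL : Goal_CL) {n : ℕ} (hn : 4 ≤ n) {R : T4 n}
    {e : Fin 4 → Fin n → ℝ} (h : Gd R e) {q : Fin n → ℝ} (hq : perp4 e q) :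
    ∃ q1 q4, perp4 e q1 ∧ perp4 e q4 ∧ q = (fun i => q1 i + q4 i) ∧ Eg R (e 0) 1 q1 ∧ Eg R (e 0) 4 q4 := by
  have hC : IsCurv R := h.nv.fg.1
  obtain ⟨f012, f013, f1, f2, f3⟩ := h.fts hNV1 hEQF hU2 hCL hn
  have hon := h.nv.on
  -- eigenvectors with other eigenvalues
  have H : ∀ (w : Fin n → ℝ) (s : ℝ), (Az R (e 0)).mulVec w = s • w → s ≠ 1 → s ≠ 4 → dot q w = 0 := by
    intro w s hw h1 h4
    have hws : ∀ p, R4 R (e 0) p (e 0) w = s * dot p w := by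
      intro p
      rw [Az_dot hR4T, hw]
      show p ⬝ᵥ (s • w) = _
      rw [dotProduct_smul]
      rfl
    have c1 : dot (e 1) w = 0 := by
      have g1 := hws (e 1)
      rw [pr hR4T hC, f012.x4.2 w, dot_symm] at g1
      have : (s - 4) * dot (e 1) w = 0 := by linarith
      exact (mul_eq_zero.1 this).resolve_left (sub_ne_zero.2 h4)
    have c2 : dot (e 2) w = 0 := by
      have g1 := hws (e 2)
      rw [pr hR4T hC, f012.y1.2 w, dot_symm] at g1
      have : (s - 1) * dot (e 2) w = 0 := by linarith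
      exact (mul_eq_zero.1 this).resolve_left (sub_ne_zero.2 h1)
    have c3 : dot (e 3) w = 0 := by
      have g1 := hws (e 3)
      rw [pr hR4T hC, f013.y1.2 w, dot_symm] at g1
      have : (s - 1) * dot (e 3) w = 0 := by linarith
      exact (mul_eq_zero.1 this).resolve_left (sub_ne_zero.2 h1)
    have c0 : s * dot (e 0) w = 0 := by
      rw [← hws (e 0), a12 hR4T hC]
      have := a12 hR4T hC (e 0) (e 0) (e 0) w
      linarith
    set w' : Fin n → ℝ := fun i => 1 * w i + (-(dot (e 0) w)) * e 0 i with hw'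
    have p0 : dot w' (e 0) = 0 := by
      rw [hw', dot_cmb, dot_symm w, hon 0 0]
      simp
    have p1 : dot w' (e 1) = 0 := by
      rw [hw', dot_cmb, dot_symm w, c1, hon 0 1]
      simp
    have p2 : dot w' (e 2) = 0 := by
      rw [hw', dot_cmb, dot_symm w, c2, hon 0 2]
      simp
    have p3 : dot w' (e 3) = 0 := by
      rw [hw', dot_cmb, dot_symm w, c3, hon 0 3]
      simp
    have hperp : perp4 e w' := by
      intro i
      fin_cases i
      · exact p0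
      · exact p1
      · exact p2
      · exact p3
    have hE : Eg R (e 0) s w' := by
      refine ⟨p0, fun p => ?_⟩
      have z1 : R4 R (e 0) p (e 0) (e 0) = 0 := by
        have := a34 hR4T hC (e 0) p (e 0) (e 0)
        linarith
      rw [hw', l4 hR4T, dot_cmb', hws p, z1]
      have : s * ((-(dot (e 0) w)) * dot p (e 0)) = 0 := by
        have : s * ((-(dot (e 0) w)) * dot p (e 0)) = -(s * dot (e 0) w) * dot p (e 0) := by ring
        rw [this, c0]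
        ring
      linarith
    have hw0 : w' = 0 := by
      by_contra hne
      exact h4 ((W4 hR4T hNV1 hEQF hU2 hCL hn h hperp hE h1).2.2.2 hne)
    have e1 : w = fun i => dot (e 0) w * e 0 i + 0 * e 0 i := by
      funext i
      have := congrFun hw0 i
      rw [hw'] at this
      simp only [Pi.zero_apply] at this
      linarith
    rw [e1, dot_cmb', hq 0]
    ring
  have hsp := spec_two (Az_symm hR4T hC (e 0)) q H
  set A := Az R (e 0) with hA
  set u : Fin n → ℝ := A.mulVec q with hu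
  -- `A q` is orthogonal to `e`
  have hAq : ∀ p, dot p u = R4 R (e 0) p (e 0) q := fun p => (Az_dot hR4T R (e 0) p q).symm
  have hAu : ∀ p, R4 R (e 0) p (e 0) u = 5 * dot p u - 4 * dot p q := by
    intro p
    rw [Az_dot hR4T, ← hA, hsp]
    show p ⬝ᵥ ((5 : ℝ) • u - (4 : ℝ) • q) = _
    rw [dotProduct_sub, dotProduct_smul, dotProduct_smul]
    rfl
  have u0 : dot (e 0) u = 0 := by
    rw [hAq]
    have := a12 hR4T hC (e 0) (e 0) (e 0) q
    linarith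
  have u1 : dot (e 1) u = 0 := by
    rw [hAq, pr hR4T hC, f012.x4.2 q, hq 1]
    ring
  have u2 : dot (e 2) u = 0 := by
    rw [hAq, pr hR4T hC, f012.y1.2 q, hq 2]
    ring
  have u3 : dot (e 3) u = 0 := by
    rw [hAq, pr hR4T hC, f013.y1.2 q, hq 3]
    ring
  have hup : ∀ (s t : ℝ), perp4 e (fun i => s * q i + t * u i) := by
    intro s t i
    fin_cases i
    · show dot _ (e 0) = 0
      rw [dot_cmb, hq 0, dot_symm u, u0]
      ring
    · show dot _ (e 1) = 0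
      rw [dot_cmb, hq 1, dot_symm u, u1]
      ring
    · show dot _ (e 2) = 0
      rw [dot_cmb, hq 2, dot_symm u, u2]
      ring
    · show dot _ (e 3) = 0
      rw [dot_cmb, hq 3, dot_symm u, u3]
      ring
  refine ⟨fun i => (4 / 3) * q i + (-(1 / 3)) * u i, fun i => (-(1 / 3)) * q i + (1 / 3) * u i, hup _ _, hup _ _, ?_,
    ⟨hup _ _ 0, fun p => ?_⟩, ⟨hup _ _ 0, fun p => ?_⟩⟩
  · funext i
    ring
  · rw [l4 hR4T, dot_cmb', hAu, ← hAq]
    ring
  · rw [l4 hR4T, dot_cmb', hAu, ← hAq]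
    ring

/-- `q ∈ W_1(e0)` implies `q ∈ W_1(e1)` -/
theorem W1 (hR4T : G_R4T) (hNV1 : G_NV1) (hEQF : G_EQF) (hU2 : G_U2) (hCL : Goal_CL) {n : ℕ} (hn : 4 ≤ n) {R : T4 n}
    {e : Fin 4 → Fin n → ℝ} (h : Gd R e) {p : Fin n → ℝ} (hp : perp4 e p) (hE : Eg R (e 0) 1 p) : Eg R (e 1) 1 p := by
  have hC : IsCurv R := h.nv.fg.1
  have c1 : lc e 0 1 0 0 = e 1 := by funext i; unfold lc; ring
  have c3 : lc e 0 0 0 1 = e 3 := by funext i; unfold lc; ring
  have g := h.uf hNV1 hU2 hCL hn 0 1 0 0 (-1) 0 (by norm_num) (by norm_num)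
  have gp := perp_ufr hp 0 1 0 0 (-1) 0
  have g0 : ufr e 0 1 0 0 (-1) 0 0 = e 1 := c1
  have g1 : ufr e 0 1 0 0 (-1) 0 1 = lc e (-1) 0 0 0 := by
    show lc e (-1) 0 (-0) 0 = _
    rw [neg_zero]
  obtain ⟨p1, p4, h1, h4, hsum, E1, E4⟩ := split4 hR4T hNV1 hEQF hU2 hCL hn g gp
  have F4 := (W4 hR4T hNV1 hEQF hU2 hCL hn g h4 E4 (by norm_num)).1
  rw [g0] at E1 E4
  rw [g1] at F4
  -- `p4` is an eigenvector of `R_e0` with value 4
  have F4' : ∀ x, R4 R (e 0) x (e 0) p4 = 4 * dot x p4 := by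
    intro x
    have := F4.2 x
    rw [l1c hR4T, l3c hR4T] at this
    linarith
  have k1 : R4 R (e 0) p4 (e 0) p = 1 * dot p4 p := hE.2 p4
  have k2 : R4 R (e 0) p (e 0) p4 = 4 * dot p p4 := F4' p
  rw [pr hR4T hC, dot_symm p p4] at k2
  have k3 : dot p4 p = 0 := by linarith
  have k4 : dot p1 p4 = 0 := by
    have m1 := E1.2 p4
    have m2 := E4.2 p1
    rw [pr hR4T hC, dot_symm p1 p4] at m2
    rw [dot_symm]
    linarith
  have hs' : p = fun i => 1 * p1 i + 1 * p4 i := by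
    rw [hsum]
    funext i
    ring
  have k5 : nrm p4 = 0 := by
    rw [hs', dot_cmb', dot_symm p4 p1, k4, ← nrm_dot'] at k3
    linarith
  have k6 : p4 = 0 := nrm_zero' k5
  have k7 : p = p1 := by
    rw [hsum, k6]
    funext i
    simp
  rw [k7]
  exact E1

/-- third claim of OD1 -/
theorem same (hR4T : G_R4T) (hNV1 : G_NV1) (hEQF : G_EQF) (hU2 : G_U2) (hCL : Goal_CL) {n : ℕ} (hn : 4 ≤ n) {R : T4 n}
    {e : Fin 4 → Fin n → ℝ} (h : Gd R e) {p q : Fin n → ℝ} (_hp : perp4 e p) (hq : perp4 e q) :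
    R4 R (e 0) p (e 0) q = R4 R (e 1) p (e 1) q := by
  obtain ⟨q1, q4, h1, h4, hsum, E1, E4⟩ := split4 hR4T hNV1 hEQF hU2 hCL hn h hq
  have F1 := W1 hR4T hNV1 hEQF hU2 hCL hn h h1 E1
  have F4 := (W4 hR4T hNV1 hEQF hU2 hCL hn h h4 E4 (by norm_num)).1
  have hs' : q = fun i => 1 * q1 i + 1 * q4 i := by
    rw [hsum]
    funext i
    ring
  rw [hs', l4 hR4T, l4 hR4T, E1.2, E4.2, F1.2, F4.2]

/-- fourth claim of OD1, for `p` orthogonal to the frame -/
theorem tri0 (hR4T : G_R4T) (hNV1 : G_NV1) (hEQF : G_EQF) (hU2 : G_U2) (hCL : Goal_CL) {n : ℕ} (hn : 4 ≤ n) {R : T4 n}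
    {e : Fin 4 → Fin n → ℝ} (h : Gd R e) {p : Fin n → ℝ} (hp : perp4 e p) (a b c d : ℝ)
    (h1 : a ^ 2 + b ^ 2 + c ^ 2 + d ^ 2 = 1) (j : Fin 4) :
    R4 R (lc e a b c d) (e j) (lc e a b c d) p = 0 := by
  have hC : IsCurv R := h.nv.fg.1
  have gA := (h.uf hNV1 hU2 hCL hn a b c d 1 0 h1 (by norm_num)).ft hNV1 hEQF hn
  have gB := (h.uf hNV1 hU2 hCL hn a b c d 0 1 h1 (by norm_num)).ft hNV1 hEQF hn
  have gpA := perp_ufr hp a b c d 1 0
  have gpB := perp_ufr hp a b c d 0 1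
  set f := ufr e a b c d 1 0 with hf
  set f' := ufr e a b c d 0 1 with hf'
  have f0 : f 0 = lc e a b c d := rfl
  have f0' : f' 0 = lc e a b c d := rfl
  have hz0 : R4 R (f 0) (f 0) (f 0) p = 0 := by
    have := a12 hR4T hC (f 0) (f 0) (f 0) p
    linarith
  have hz1 : R4 R (f 0) (f 1) (f 0) p = 0 := by
    rw [pr hR4T hC, gA.x4.2 p, gpA 1]
    ring
  have hz2 : R4 R (f 0) (f 2) (f 0) p = 0 := by
    rw [pr hR4T hC, gA.y1.2 p, gpA 2]
    ring
  have hz3 : R4 R (f 0) (f' 2) (f 0) p = 0 := by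
    rw [f0, ← f0', pr hR4T hC, gB.y1.2 p, gpB 2]
    ring
  have f1 : f 1 = lc e (-b) a (-d) c := rfl
  have f2 : f 2 = lc e (-c) d a (-b) := by
    show lc e (-(1 * c + 0 * d)) (1 * d - 0 * c) (1 * a + 0 * b) (0 * a - 1 * b) = _
    simp
  have f3 : f' 2 = lc e (-d) (-c) b a := by
    show lc e (-(0 * c + 1 * d)) (0 * d - 1 * c) (0 * a + 1 * b) (1 * a - 0 * b) = _
    simp
  rw [f0] at hz0 hz1 hz2 hz3
  set x := lc e a b c d with hx
  have H : ∀ y0 y1 y2 y3 : ℝ, R4 R x (lc e y0 y1 y2 y3) x p =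
      (y0 * a + y1 * b + y2 * c + y3 * d) * R4 R x (lc e a b c d) x p
      + (-(y0 * b) + y1 * a - y2 * d + y3 * c) * R4 R x (lc e (-b) a (-d) c) x p
      + (-(y0 * c) + y1 * d + y2 * a - y3 * b) * R4 R x (lc e (-c) d a (-b)) x p
      + (-(y0 * d) - y1 * c + y2 * b + y3 * a) * R4 R x (lc e (-d) (-c) b a) x p := by
    intro y0 y1 y2 y3
    simp only [l2c hR4T]
    have e0 : y0 = y0 * (a ^ 2 + b ^ 2 + c ^ 2 + d ^ 2) := by rw [h1, mul_one]
    have e1 : y1 = y1 * (a ^ 2 + b ^ 2 + c ^ 2 + d ^ 2) := by rw [h1, mul_one]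
    have e2 : y2 = y2 * (a ^ 2 + b ^ 2 + c ^ 2 + d ^ 2) := by rw [h1, mul_one]
    have e3 : y3 = y3 * (a ^ 2 + b ^ 2 + c ^ 2 + d ^ 2) := by rw [h1, mul_one]
    calc y0 * R4 R x (e 0) x p + y1 * R4 R x (e 1) x p + y2 * R4 R x (e 2) x p + y3 * R4 R x (e 3) x p
        = y0 * (a ^ 2 + b ^ 2 + c ^ 2 + d ^ 2) * R4 R x (e 0) x p + y1 * (a ^ 2 + b ^ 2 + c ^ 2 + d ^ 2) * R4 R x (e 1) x p
          + y2 * (a ^ 2 + b ^ 2 + c ^ 2 + d ^ 2) * R4 R x (e 2) x p
          + y3 * (a ^ 2 + b ^ 2 + c ^ 2 + d ^ 2) * R4 R x (e 3) x p := by rw [← e0, ← e1, ← e2, ← e3]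
      _ = _ := by ring
  have H' : ∀ y0 y1 y2 y3 : ℝ, R4 R x (lc e y0 y1 y2 y3) x p = 0 := by
    intro y0 y1 y2 y3
    rw [H, ← hx, hz0, ← f1, hz1, ← f2, hz2, ← f3, hz3]
    ring
  have ee : ∀ j : Fin 4, e j = lc e (if j = 0 then 1 else 0) (if j = 1 then 1 else 0) (if j = 2 then 1 else 0)
      (if j = 3 then 1 else 0) := by
    intro j
    funext i
    unfold lc
    fin_cases j <;> simp
  rw [ee j]
  exact H' _ _ _ _

theorem tri1 (hR4T : G_R4T) (hNV1 : G_NV1) (hEQF : G_EQF) (hU2 : G_U2) (hCL : Goal_CL) {n : ℕ} (hn : 4 ≤ n) {R : T4 n}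
    {e : Fin 4 → Fin n → ℝ} (h : Gd R e) {p : Fin n → ℝ} (hp : perp4 e p) (a c j : Fin 4) :
    R4 R (e a) (e j) (e c) p + R4 R (e c) (e j) (e a) p = 0 := by
  have hd : ∀ i : Fin 4, R4 R (e i) (e j) (e i) p = 0 := by
    intro i
    have ee : ∀ j : Fin 4, e j = lc e (if j = 0 then 1 else 0) (if j = 1 then 1 else 0) (if j = 2 then 1 else 0)
        (if j = 3 then 1 else 0) := by
      intro j
      funext i
      unfold lc
      fin_cases j <;> simp
    have := tri0 hR4T hNV1 hEQF hU2 hCL hn h hp (if i = 0 then 1 else 0) (if i = 1 then 1 else 0) (if i = 2 then 1 else 0)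
      (if i = 3 then 1 else 0) (by fin_cases i <;> simp) j
    rwa [← ee i] at this
  by_cases hac : a = c
  · subst hac
    rw [hd]
    ring
  · obtain ⟨v, hv⟩ : ∃ v : ℝ, v ^ 2 = 1 / 2 := ⟨Real.sqrt (1 / 2), Real.sq_sqrt (by norm_num)⟩
    set α : Fin 4 → ℝ := fun i => (if i = a then v else 0) + (if i = c then v else 0) with hα
    have hu : α 0 ^ 2 + α 1 ^ 2 + α 2 ^ 2 + α 3 ^ 2 = 1 := by
      rw [hα]
      fin_cases a <;> fin_cases c <;> first | exact absurd rfl hac | (simp; linarith)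
    have hs := tri0 hR4T hNV1 hEQF hU2 hCL hn h hp (α 0) (α 1) (α 2) (α 3) hu j
    have hx : lc e (α 0) (α 1) (α 2) (α 3) = fun i => v * e a i + v * e c i := by
      funext i
      unfold lc
      rw [hα]
      fin_cases a <;> fin_cases c <;> simp <;> ring
    rw [hx, l1 hR4T, l3 hR4T, l3 hR4T, hd a, hd c] at hs
    have : v ^ 2 * (R4 R (e a) (e j) (e c) p + R4 R (e c) (e j) (e a) p) = 0 := by linarith
    rw [hv] at this
    linarith

theorem tri2 (hR4T : G_R4T) (hNV1 : G_NV1) (hEQF : G_EQF) (hU2 : G_U2) (hCL : Goal_CL) {n : ℕ} (hn : 4 ≤ n) {R : T4 n}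
    {e : Fin 4 → Fin n → ℝ} (h : Gd R e) {p : Fin n → ℝ} (hp : perp4 e p) (a b c : Fin 4) :
    R4 R (e a) (e b) (e c) p = 0 := by
  have hC : IsCurv R := h.nv.fg.1
  have t := fun a c j => tri1 hR4T hNV1 hEQF hU2 hCL hn h hp a c j
  have b1 := bi hR4T hC (e a) (e b) (e c) p
  have t1 := t a c b
  have t2 := t b a c
  have a1 := a12 hR4T hC (e c) (e b) (e a) p
  have a2 := a12 hR4T hC (e a) (e c) (e b) p
  have a3 := a12 hR4T hC (e b) (e c) (e a) p
  have a4 := a12 hR4T hC (e c) (e a) (e b) p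
  linarith

/-- packet OD1 -/
theorem g_OD1 (hR4T : G_R4T) (hNV1 : G_NV1) (hEQF : G_EQF) (hU2 : G_U2) (hCL : Goal_CL) : G_OD1 := by
  intro n hn R e hNV hQ
  have h : Gd R e := ⟨hNV, hQ⟩
  have hon : ∀ i j, dot (e i) (e j) = if i = j then (1 : ℝ) else 0 := hNV.on
  refine ⟨fun q hq => split4 hR4T hNV1 hEQF hU2 hCL hn h hq, fun q hq hE => ?_,
    fun p q hp hq => same hR4T hNV1 hEQF hU2 hCL hn h hp hq, fun p a b c => ?_⟩
  · have := W4 hR4T hNV1 hEQF hU2 hCL hn h hq hE (by norm_num)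
    exact ⟨this.1, this.2.1, this.2.2.1⟩
  · set π : Fin n → ℝ := fun i => ∑ j, dot p (e j) * e j i with hπ
    set w : Fin n → ℝ := fun i => 1 * p i + (-1) * π i with hw
    have hπd : ∀ k, dot π (e k) = dot p (e k) := by
      intro k
      have e1 : dot π (e k) = ∑ j, dot p (e j) * dot (e j) (e k) := by
        show (∑ i, (∑ j, dot p (e j) * e j i) * e k i) = ∑ j, dot p (e j) * ∑ i, e j i * e k i
        have : ∀ j, dot p (e j) * ∑ i, e j i * e k i = ∑ i, dot p (e j) * e j i * e k i := by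
          intro j
          rw [Finset.mul_sum]
          exact Finset.sum_congr rfl fun l _ => by ring
        rw [Finset.sum_congr rfl fun j _ => this j, Finset.sum_comm]
        exact Finset.sum_congr rfl fun i _ => by rw [Finset.sum_mul]
      rw [e1]
      simp only [hon, mul_ite, mul_one, mul_zero, Finset.sum_ite_eq', Finset.mem_univ, if_true]
    have hwp : perp4 e w := by
      intro k
      rw [hw, dot_cmb, hπd]
      ring
    have hp' : p = fun i => 1 * w i + 1 * π i := by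
      funext i
      rw [hw]
      ring
    have := tri2 hR4T hNV1 hEQF hU2 hCL hn h hwp a b c
    nth_rw 1 [hp']
    rw [l4 hR4T, this]
    ring

end Pool.Agent.Helper12.FLG
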